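import Pool.Agent.MGP.Stmts

/-!
# Row RNG of squad MGP
-/

namespace Pool.Agent.MGP.H8

/-- row RNG -/
theorem rng : RngStmt := by
  intro G _ f N F c hf hFN hv r hr h1 h2
  have hr0 : 0 < r := hr.pos
  have key : ∃ a : ℕ, Odd a ∧ r * a ≤ N ∧ N < r * a + 2 * r := by
    have e1 : r * (N / r) ≤ N := Nat.mul_div_le N r
    have e2 : N < r * (N / r) + r := by
      have := Nat.lt_mul_div_succ N hr0
      rw [Nat.mul_add, Nat.mul_one] at this
      exact this
    have e3 : 2 ≤ N / r := by
      rw [Nat.le_div_iff_mul_le hr0]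
      omega
    rcases Nat.even_or_odd (N / r) with he | ho
    · obtain ⟨t, ht⟩ : ∃ t, N / r = t + 1 := ⟨N / r - 1, by omega⟩
      refine ⟨t, ?_, ?_, ?_⟩
      · rw [ht] at he
        rcases Nat.even_or_odd t with h | h
        · exact absurd he (Nat.not_even_iff_odd.2 h.add_one)
        · exact h
      · rw [ht, Nat.mul_add, Nat.mul_one] at e1
        omega
      · rw [ht, Nat.mul_add, Nat.mul_one] at e2
        omega
    · exact ⟨N / r, ho, e1, by omega⟩
  obtain ⟨a, ha, ha1, ha2⟩ := key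
  have ha3 : 2 * a ≤ F := by
    have : r * (2 * a) ≤ r * F := by
      calc r * (2 * a) = 2 * (r * a) := by ring
        _ ≤ 2 * N := by omega
        _ ≤ r * F := h1
    exact Nat.le_of_mul_le_mul_left this hr0
  have hr2 : Odd (r + 2) := by
    rcases hr with ⟨m, hm⟩
    exact ⟨m + 1, by omega⟩
  have c1 : f (r * a) = c := hv _ (hr.mul ha) (by omega) (by omega)
  have e4 : (r + 2) * a = r * a + 2 * a := by ring
  have c2 : f ((r + 2) * a) = c := hv _ (hr2.mul ha) (by rw [e4]; omega) (by rw [e4]; omega)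
  rw [hf _ _ hr ha] at c1
  rw [hf _ _ hr2 ha] at c2
  exact mul_right_cancel (c1.trans c2.symm)

end Pool.Agent.MGP.H8
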